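import Pool.Agent.Y119.HY.Fam
import Pool.Agent.Y120.R.XY

/-!
# Systems with a nilpotent residue: the hypothesis of the theorem on tuples, general form
-/

set_option autoImplicit false

open PowerSeries Pool.Agent.Y113 Pool.Agent.Y120.GF Pool.Agent.Y120.GH

namespace Pool.Agent.Y119.HZ

section
open Pool.Agent.Y119.HY (cm Ep E Ep_eval E_HD E_neg)

variable {n : ℕ} {H W : Matrix (Fin n) (Fin n) ℚ⟦X⟧} {N : Matrix (Fin n) (Fin n) ℚ} {Nz : Fin n → Fin n → ℤ}
  {T₁ : Polynomial ℤ} {A : Fin n → Fin n → Polynomial ℤ}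

/-- the system for the entries of the holomorphic part -/
noncomputable def A3 (T₁ : Polynomial ℤ) (A : Fin n → Fin n → Polynomial ℤ) (Nz : Fin n → Fin n → ℤ)
    (p q : Fin n × Fin n) : Polynomial ℤ :=
  (if q.2 = p.2 then A p.1 q.1 else 0) - (if q.1 = p.1 then T₁ * Polynomial.C (Nz q.2 p.2) else 0)

/-- summation -/
lemma sum_A3 {R : Type*} [CommRing R] (f : Polynomial ℤ →+* R) (p : Fin n × Fin n)
    (x : Fin n × Fin n → R) : ∑ q, f (A3 T₁ A Nz p q) * x q =
      ∑ k, f (A p.1 k) * x (k, p.2) - f T₁ * ∑ l : Fin n, f (Polynomial.C (Nz l p.2)) * x (p.1, l) := by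
  unfold A3
  simp only [map_sub, sub_mul, Finset.sum_sub_distrib]
  congr 1
  · rw [Fintype.sum_prod_type]
    refine Finset.sum_congr rfl fun k _ => ?_
    rw [Finset.sum_eq_single p.2]
    · simp
    · intro l _ hl
      rw [if_neg hl, map_zero, zero_mul]
    · intro h
      exact absurd (Finset.mem_univ _) h
  · rw [Fintype.sum_prod_type, Finset.sum_eq_single p.1]
    · rw [Finset.mul_sum]
      refine Finset.sum_congr rfl fun l _ => ?_
      rw [if_pos rfl, map_mul]
      ring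
    · intro k _ hk
      refine Finset.sum_eq_zero fun l _ => ?_
      rw [if_neg hk, map_zero, zero_mul]
    · intro h
      exact absurd (Finset.mem_univ _) h

lemma psR_Nz (hNz : ∀ i j, (Nz i j : ℚ) = N i j) (l j : Fin n) : psR (Polynomial.C (Nz l j)) = C (N l j) := by
  rw [psR_apply]
  unfold ps
  rw [Polynomial.map_C, Polynomial.coe_C, ← hNz]
  rfl

lemma ode_A3 (hNz : ∀ i j, (Nz i j : ℚ) = N i j)
    (hode : ∀ i j, ps T₁ * (X * d⁄dX ℚ (H i j) + ∑ k, H i k * C (N k j)) = ∑ k, ps (A i k) * H k j)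
    (p : Fin n × Fin n) : ps (Polynomial.X * T₁) * d⁄dX ℚ (H p.1 p.2) =
      ∑ q, ps (A3 T₁ A Nz p q) * H q.1 q.2 := by
  have h1 := sum_A3 (T₁ := T₁) (A := A) (Nz := Nz) psR p (fun q => H q.1 q.2)
  simp only [psR_Nz hNz] at h1
  simp only [psR_apply] at h1
  rw [h1, ← hode, ps_X_mul]
  have h2 : ∑ l, C (N l p.2) * H p.1 l = ∑ k, H p.1 k * C (N k p.2) :=
    Finset.sum_congr rfl fun l _ => mul_comm _ _
  rw [h2]
  ring

/-! ### the fundamental matrix -/

/-- complex power series as constants in the polynomials in the logarithm -/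
noncomputable def Phj (H : Matrix (Fin n) (Fin n) ℚ⟦X⟧) (N : Matrix (Fin n) (Fin n) ℚ) (p q : Fin n × Fin n) :
    Polynomial (PowerSeries ℂ) :=
  ∑ c, Polynomial.C (cx (H p.1 c)) * (pE (cm N) c q.1 q.2 p.2).map (C (R := ℂ))

lemma Phj_coeff (p q : Fin n × Fin n) (k : ℕ) : (Phj H N p q).coeff k =
    ∑ c, cx (H p.1 c) * C ((pE (cm N) c q.1 q.2 p.2).coeff k) := by
  unfold Phj
  rw [Polynomial.finsetSum_coeff]
  refine Finset.sum_congr rfl fun c _ => ?_
  rw [Polynomial.coeff_C_mul, Polynomial.coeff_map]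

lemma cxR_Nz (hNz : ∀ i j, (Nz i j : ℚ) = N i j) (l j : Fin n) : cxR (Polynomial.C (Nz l j)) = C (cm N l j) := by
  show cx (psR (Polynomial.C (Nz l j))) = _
  rw [psR_Nz hNz, cx_C]
  rfl

theorem Phj_ode (hN0 : N ^ n = 0) (hNz : ∀ i j, (Nz i j : ℚ) = N i j)
    (hode0 : ∀ i j, ps T₁ * (X * d⁄dX ℚ (H i j) + ∑ k, H i k * C (N k j)) = ∑ k, ps (A i k) * H k j)
    (p q : Fin n × Fin n) (k : ℕ) : cxR T₁ * ((X : PowerSeries ℂ) * PowerSeries.derivative ℂ ((Phj H N p q).coeff k) +
      ((k : PowerSeries ℂ) + 1) * (Phj H N p q).coeff (k + 1)) = ∑ l, cxR (A3 T₁ A Nz p l) * (Phj H N l q).coeff k := by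
  have hN : cm N ^ n = 0 := by
    rw [← Pool.Agent.Y119.HY.cm_pow, hN0, Pool.Agent.Y119.HY.cm_zero]
  obtain ⟨i, j⟩ := p
  obtain ⟨a, c'⟩ := q
  -- the equation over the complex numbers
  have hode : ∀ i j, cxR T₁ * (X * PowerSeries.derivative ℂ (cx (H i j)) + ∑ k, cx (H i k) * C (cm N k j)) =
      ∑ k, cxR (A i k) * cx (H k j) := by
    intro i j
    have h1 := congrArg cx (hode0 i j)
    rw [map_mul, map_add, map_mul, map_sum, map_sum, cx_der] at h1
    have h2 : cx (X : ℚ⟦X⟧) = X := by rw [cx, map_X]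
    rw [h2] at h1
    simp only [map_mul, cx_C] at h1
    exact h1
  rw [sum_A3]
  simp only [cxR_Nz hNz]
  simp only [Phj_coeff]
  generalize cm N = M at hN hode ⊢
  -- the derivative of the coefficients
  have hd : PowerSeries.derivative ℂ (∑ c, cx (H i c) * C ((pE M c a c' j).coeff k)) =
      ∑ c, PowerSeries.derivative ℂ (cx (H i c)) * C ((pE M c a c' j).coeff k) := by
    rw [map_sum]
    refine Finset.sum_congr rfl fun c _ => ?_
    rw [Derivation.leibniz, PowerSeries.derivative_C]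
    simp only [smul_eq_mul]
    ring
  have hk : ((k : PowerSeries ℂ) + 1) * ∑ c, cx (H i c) * C ((pE M c a c' j).coeff (k + 1)) =
      ∑ c, (∑ d, cx (H i d) * C (M d c)) * C ((pE M c a c' j).coeff k) -
      ∑ l, C (M l j) * ∑ c, cx (H i c) * C ((pE M c a c' l).coeff k) := by
    have e1 : ((k : PowerSeries ℂ) + 1) = C ((k : ℂ) + 1) := by rw [map_add, map_one, map_natCast]
    have e2 : ∀ c, C ((k : ℂ) + 1) * (cx (H i c) * C ((pE M c a c' j).coeff (k + 1))) =
        cx (H i c) * (∑ d, C (M c d) * C ((pE M d a c' j).coeff k)) -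
        cx (H i c) * ∑ d, C (M d j) * C ((pE M c a c' d).coeff k) := by
      intro c
      have e3 : C ((k : ℂ) + 1) * C ((pE M c a c' j).coeff (k + 1)) =
          (∑ d, C (M c d) * C ((pE M d a c' j).coeff k)) - ∑ d, C (M d j) * C ((pE M c a c' d).coeff k) := by
        rw [← map_mul, pE_deriv hN, map_sub, map_sum, map_sum]
        simp only [map_mul]
      rw [← mul_sub, ← e3]
      ring
    rw [e1, Finset.mul_sum, Finset.sum_congr rfl fun c _ => e2 c, Finset.sum_sub_distrib]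
    congr 1
    · simp only [Finset.mul_sum, Finset.sum_mul]
      rw [Finset.sum_comm]
      exact Finset.sum_congr rfl fun c _ => Finset.sum_congr rfl fun d _ => by ring
    · simp only [Finset.mul_sum]
      rw [Finset.sum_comm]
      exact Finset.sum_congr rfl fun c _ => Finset.sum_congr rfl fun d _ => by ring
  rw [hd, hk]
  have hmain : cxR T₁ * ((X : PowerSeries ℂ) * ∑ c, PowerSeries.derivative ℂ (cx (H i c)) * C ((pE M c a c' j).coeff k) +
      ∑ c, (∑ d, cx (H i d) * C (M d c)) * C ((pE M c a c' j).coeff k)) =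
      ∑ k', cxR (A i k') * ∑ c, cx (H k' c) * C ((pE M c a c' j).coeff k) := by
    have e1 : (X : PowerSeries ℂ) * ∑ c, PowerSeries.derivative ℂ (cx (H i c)) * C ((pE M c a c' j).coeff k) +
        ∑ c, (∑ d, cx (H i d) * C (M d c)) * C ((pE M c a c' j).coeff k) =
        ∑ c, (X * PowerSeries.derivative ℂ (cx (H i c)) + ∑ d, cx (H i d) * C (M d c)) *
          C ((pE M c a c' j).coeff k) := by
      rw [Finset.mul_sum, ← Finset.sum_add_distrib]
      exact Finset.sum_congr rfl fun c _ => by ring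
    rw [e1, Finset.mul_sum]
    have e2 : ∀ c, cxR T₁ * ((X * PowerSeries.derivative ℂ (cx (H i c)) + ∑ d, cx (H i d) * C (M d c)) *
          C ((pE M c a c' j).coeff k)) = ∑ k', cxR (A i k') * (cx (H k' c) * C ((pE M c a c' j).coeff k)) := by
      intro c
      rw [← mul_assoc, hode i c, Finset.sum_mul]
      exact Finset.sum_congr rfl fun k' _ => by ring
    rw [Finset.sum_congr rfl fun c _ => e2 c, Finset.sum_comm]
    exact Finset.sum_congr rfl fun k' _ => by rw [Finset.mul_sum]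
  rw [← hmain]
  ring

/-! ### the hypotheses over `Fin r` -/

lemma rho_Phj (hN0 : N ^ n = 0) (h0 : ∀ i j, coeff 0 (H i j) = if i = j then 1 else 0) (p q : Fin n × Fin n) :
    rho (Phj H N p q) = if p = q then 1 else 0 := by
  have hN : cm N ^ n = 0 := by
    rw [← Pool.Agent.Y119.HY.cm_pow, hN0, Pool.Agent.Y119.HY.cm_zero]
  have hN' : (-cm N) ^ n = 0 := by rw [neg_pow, hN, mul_zero]
  unfold Phj
  rw [map_sum]
  have h1 : ∀ c, rho (Polynomial.C (cx (H p.1 c)) * (pE (cm N) c q.1 q.2 p.2).map (C (R := ℂ))) =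
      (if p.1 = c then 1 else 0) * ((if c = q.1 then 1 else 0) * (if q.2 = p.2 then 1 else 0)) := by
    intro c
    unfold rho
    rw [map_mul, RingHom.comp_apply, RingHom.comp_apply, Polynomial.coe_evalRingHom, Polynomial.eval_C]
    congr 1
    · rw [← coeff_zero_eq_constantCoeff_apply, coeff_cx, h0]
      split_ifs <;> simp
    · have h3 : Polynomial.eval 0 ((pE (cm N) c q.1 q.2 p.2).map (C (R := ℂ))) =
          C ((pE (cm N) c q.1 q.2 p.2).eval 0) := by
        have := Polynomial.eval_map_apply (p := pE (cm N) c q.1 q.2 p.2) (C (R := ℂ)) 0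
        rw [map_zero] at this
        exact this
      rw [h3]
      unfold pE
      rw [Polynomial.eval_mul, Ep_eval_zero hN, Ep_eval_zero hN']
      simp
  simp only [h1]
  rw [Finset.sum_eq_single p.1]
  · rw [if_pos rfl, one_mul]
    by_cases h2 : p = q
    · rw [if_pos h2, h2, if_pos rfl, if_pos rfl, one_mul]
    · rw [if_neg h2]
      by_cases h3 : p.1 = q.1
      · rw [if_neg (fun h4 : q.2 = p.2 => h2 (Prod.ext h3 h4.symm)), mul_zero]
      · rw [if_neg h3, zero_mul]
  · intro c _ hc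
    rw [if_neg (Ne.symm hc), zero_mul]
  · intro h
    exact absurd (Finset.mem_univ _) h

theorem qu_gen (hN0 : N ^ n = 0) (hNz : ∀ i j, (Nz i j : ℚ) = N i j)
    (h0 : ∀ i j, coeff 0 (H i j) = if i = j then 1 else 0)
    (hode : ∀ i j, ps T₁ * (X * d⁄dX ℚ (H i j) + ∑ k, H i k * C (N k j)) = ∑ k, ps (A i k) * H k j)
    (hH : ∀ i j, SDc (H i j)) :
    QU0 (Polynomial.X * T₁) (fun a c : Fin (n * n) => A3 T₁ A Nz (ix n a) (ix n c)) := by
  classical
  obtain ⟨B, hB0, hB⟩ := pE_bound (cm N)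
  obtain ⟨C₁, hC₁, hs, -⟩ := Pool.Agent.Y119.HY.SDc.unif (y := fun p : Fin n × Fin n => H p.1 p.2) fun p => hH p.1 p.2
  refine ⟨1, one_ne_zero, 0, (n * B + 1) * C₁, Matrix.of fun a c => Phj H N (ix n a) (ix n c), fun a c k m => ?_,
    fun a c k => ?_, ?_⟩
  · rw [Matrix.of_apply, Phj_coeff, map_sum]
    have h1 : ∀ d, ‖coeff m (cx (H (ix n a).1 d) * C ((pE (cm N) d (ix n c).1 (ix n c).2 (ix n a).2).coeff k))‖ ≤
        C₁ ^ (m + 1) * B := by
      intro d
      rw [coeff_mul_C, norm_mul, norm_coeff_cx]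
      exact mul_le_mul (hs (_, d) m) (hB _ _ _ _ _) (norm_nonneg _) (by positivity)
    refine (norm_sum_le _ _).trans ((Finset.sum_le_sum fun d _ => h1 d).trans ?_)
    rw [Finset.sum_const, Finset.card_univ, Fintype.card_fin, nsmul_eq_mul, mul_pow]
    have h2 : (n : ℝ) * B ≤ (n * B + 1) ^ (m + 1) := by
      have h3 : 0 ≤ (n : ℝ) * B := by positivity
      exact le_trans (by linarith) (le_self_pow₀ (by linarith) (by omega))
    calc (n : ℝ) * (C₁ ^ (m + 1) * B) = (n * B) * C₁ ^ (m + 1) := by ring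
      _ ≤ _ := mul_le_mul_of_nonneg_right h2 (by positivity)
  · have h1 := Phj_ode hN0 hNz hode (ix n a) (ix n c) k
    simp only [expand_poly one_ne_zero, Polynomial.expand_one]
    simp only [← cxR_apply]
    rw [Nat.cast_zero, zero_mul, sub_zero, Nat.cast_one, one_mul, pow_one]
    have h2 : ∑ l : Fin (n * n), cxR (A3 T₁ A Nz (ix n a) (ix n l)) * ((Matrix.of fun a c => Phj H N (ix n a) (ix n c)) l c).coeff k =
        ∑ l, cxR (A3 T₁ A Nz (ix n a) l) * (Phj H N l (ix n c)).coeff k :=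
      Equiv.sum_comp (ix n) fun l => cxR (A3 T₁ A Nz (ix n a) l) * (Phj H N l (ix n c)).coeff k
    rw [h2, ← h1, map_mul]
    have h3 : cxR Polynomial.X = (X : PowerSeries ℂ) := by
      rw [cxR_apply, Polynomial.map_X, Polynomial.coe_X]
    rw [h3, mul_assoc]
    rfl
  · intro h00
    have h1 := congrArg rho h00
    rw [RingHom.map_det, map_zero] at h1
    have h2 : rho.mapMatrix (Matrix.of fun a c : Fin (n * n) => Phj H N (ix n a) (ix n c)) = 1 := by
      ext a c
      rw [RingHom.mapMatrix_apply, Matrix.map_apply, Matrix.of_apply, rho_Phj hN0 h0, Matrix.one_apply]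
      by_cases h3 : a = c
      · rw [if_pos h3, if_pos (by rw [h3])]
      · rw [if_neg h3, if_neg fun h4 => h3 ((ix n).injective h4)]
    rw [h2, Matrix.det_one] at h1
    exact one_ne_zero h1

/-- **The hypothesis of the theorem on tuples**: systems `θ Y = (A / T₁) Y` with `Y = H z ^ N`, `H(0) = 1`, `N` nilpotent,
whose power series have size and denominators as for hypergeometric series. -/
theorem fam_gen (hN0 : N ^ n = 0) (hNz : ∀ i j, (Nz i j : ℚ) = N i j) (hT : T₁ ≠ 0) (hHW : H * W = 1)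
    (h0 : ∀ i j, coeff 0 (H i j) = if i = j then 1 else 0)
    (hode : ∀ i j, ps T₁ * (X * d⁄dX ℚ (H i j) + ∑ k, H i k * C (N k j)) = ∑ k, ps (A i k) * H k j)
    (hH : ∀ i j, SDc (H i j)) (hW : ∀ i j, SDc (W i j)) (δ : ℕ) :
    Pool.Agent.Y120.R.Fam δ (fun a : Fin (n * n) => H (ix n a).1 (ix n a).2) := by
  obtain ⟨q, C, hG⟩ := gsysL hN0 hHW hode hH hW
  have hG' := hG.reindex (ix n)
  refine ⟨?_, ?_⟩
  · obtain ⟨C₁, hC₁, hs, -⟩ := Pool.Agent.Y119.HY.SDc.unif (y := fun p : Fin n × Fin n => H p.1 p.2) fun p => hH p.1 p.2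
    exact ⟨C₁, fun j m => hs _ m⟩
  · have hT' : Polynomial.X * T₁ ≠ 0 := mul_ne_zero Polynomial.X_ne_zero hT
    refine family_gsys (A := fun a c => A3 T₁ A Nz (ix n a) (ix n c)) hT' (fun i => ?_) hG'
      (qu_gen hN0 hNz h0 hode hH) δ
    have h1 := ode_A3 hNz hode (ix n i)
    have h2 : ∑ j : Fin (n * n), ps (A3 T₁ A Nz (ix n i) (ix n j)) * H (ix n j).1 (ix n j).2 =
        ∑ q, ps (A3 T₁ A Nz (ix n i) q) * H q.1 q.2 :=
      Equiv.sum_comp (ix n) fun q => ps (A3 T₁ A Nz (ix n i) q) * H q.1 q.2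
    exact h1.trans h2.symm

end

end Pool.Agent.Y119.HZ
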