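import Pool.Agent.Y119.J.Gen
import Pool.Agent.Y120.J.Defs2

/-!
# The family of the modular invariant satisfies the hypothesis of the theorem on tuples
-/

set_option autoImplicit false

open PowerSeries Pool.Agent.Y113 Pool.Agent.Y119.HZ

namespace Pool.Agent.Y120.J

lemma SDc_neg {f : ℚ⟦X⟧} (h : SDc f) : SDc (-f) := by
  have h1 := (SDc.int (-1)).mul h
  have h2 : (((-1 : ℤ) : ℚ⟦X⟧)) * f = -f := by push_cast; ring
  rwa [h2] at h1

theorem t_fam (hode : T_ODE) (hsd : T_SD) : T_FAM := by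
  intro δ
  obtain ⟨h1, h2, h3⟩ := hode
  obtain ⟨hF, hG⟩ := hsd
  have hF1 : SDc F1 := SDc.X.mul hF.deriv
  have hG1 : SDc G1 := (SDc.X.mul hG.deriv).add hF
  set H : Matrix (Fin 2) (Fin 2) ℚ⟦X⟧ := !![FF, GG; F1, G1] with hH
  set W : Matrix (Fin 2) (Fin 2) ℚ⟦X⟧ := !![G1, -GG; -F1, FF] with hW
  have hT : T1 ≠ 0 := by
    intro h0
    have := congrArg (Polynomial.eval 0) h0
    simp [T1] at this
  have hFF0 : coeff 0 FF = 1 := by
    unfold FF
    rw [coeff_zero_eq_constantCoeff_apply, map_mul, ← coeff_zero_eq_constantCoeff_apply, ← coeff_zero_eq_constantCoeff_apply,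
      coeff_mk, coeff_mk]
    simp [fu, fa]
  have hGG0 : coeff 0 GG = 0 := by
    unfold GG
    rw [coeff_zero_eq_constantCoeff_apply, map_mul, ← coeff_zero_eq_constantCoeff_apply, ← coeff_zero_eq_constantCoeff_apply,
      coeff_mk, coeff_mk]
    simp [fb]
  have hF10 : coeff 0 F1 = 0 := by
    unfold F1
    rw [coeff_zero_eq_constantCoeff_apply, map_mul, constantCoeff_X, zero_mul]
  have hG10 : coeff 0 G1 = 1 := by
    unfold G1
    rw [map_add, hFF0]
    rw [coeff_zero_eq_constantCoeff_apply, map_mul, constantCoeff_X, zero_mul, zero_add]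
  have hfam := fam_gen (n := 2) (H := H) (W := W) (N := !![0, 1; 0, 0]) (Nz := ![![0, 1], ![0, 0]]) (T₁ := T1)
    (A := ![![0, T1], ![Q1, 0]]) ?_ ?_ hT ?_ ?_ ?_ ?_ ?_ δ
  · have he : (fun a : Fin (2 * 2) => H (ix 2 a).1 (ix 2 a).2) = hJ := by
      funext a
      fin_cases a <;> rfl
    rw [he] at hfam
    exact hfam
  · rw [pow_two]
    ext i j
    fin_cases i <;> fin_cases j <;> simp [Matrix.mul_apply, Fin.sum_univ_two]
  · intro i j
    fin_cases i <;> fin_cases j <;> simp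
  · rw [hH, hW, Matrix.mul_fin_two]
    refine Matrix.ext fun i j => ?_
    fin_cases i <;> fin_cases j
    · show FF * G1 + GG * -F1 = 1
      linear_combination h3
    · show FF * -GG + GG * FF = 0
      ring
    · show F1 * G1 + G1 * -F1 = 0
      ring
    · show F1 * -GG + G1 * FF = 1
      linear_combination h3
  · intro i j
    fin_cases i <;> fin_cases j
    · exact hFF0
    · exact hGG0
    · exact hF10
    · exact hG10
  · intro i j
    have h0 : ps (0 : Polynomial ℤ) = 0 := by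
      unfold ps
      simp
    fin_cases i <;> fin_cases j
    · show ps T1 * (X * d⁄dX ℚ FF + ∑ k, H 0 k * C ((!![0, 1; 0, 0] : Matrix (Fin 2) (Fin 2) ℚ) k 0)) =
        ∑ k, ps ((![![0, T1], ![Q1, 0]] : Fin 2 → Fin 2 → Polynomial ℤ) 0 k) * H k 0
      rw [Fin.sum_univ_two, Fin.sum_univ_two]
      show ps T1 * (X * d⁄dX ℚ FF + (FF * C (0 : ℚ) + GG * C (0 : ℚ))) = ps 0 * FF + ps T1 * F1
      rw [h0, map_zero]
      unfold F1
      ring
    · show ps T1 * (X * d⁄dX ℚ GG + ∑ k, H 0 k * C ((!![0, 1; 0, 0] : Matrix (Fin 2) (Fin 2) ℚ) k 1)) =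
        ∑ k, ps ((![![0, T1], ![Q1, 0]] : Fin 2 → Fin 2 → Polynomial ℤ) 0 k) * H k 1
      rw [Fin.sum_univ_two, Fin.sum_univ_two]
      show ps T1 * (X * d⁄dX ℚ GG + (FF * C (1 : ℚ) + GG * C (0 : ℚ))) = ps 0 * GG + ps T1 * G1
      rw [h0, map_zero, map_one]
      unfold G1
      ring
    · show ps T1 * (X * d⁄dX ℚ F1 + ∑ k, H 1 k * C ((!![0, 1; 0, 0] : Matrix (Fin 2) (Fin 2) ℚ) k 0)) =
        ∑ k, ps ((![![0, T1], ![Q1, 0]] : Fin 2 → Fin 2 → Polynomial ℤ) 1 k) * H k 0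
      rw [Fin.sum_univ_two, Fin.sum_univ_two]
      show ps T1 * (X * d⁄dX ℚ F1 + (F1 * C (0 : ℚ) + G1 * C (0 : ℚ))) = ps Q1 * FF + ps 0 * F1
      rw [h0, map_zero, ← h1]
      ring
    · show ps T1 * (X * d⁄dX ℚ G1 + ∑ k, H 1 k * C ((!![0, 1; 0, 0] : Matrix (Fin 2) (Fin 2) ℚ) k 1)) =
        ∑ k, ps ((![![0, T1], ![Q1, 0]] : Fin 2 → Fin 2 → Polynomial ℤ) 1 k) * H k 1
      rw [Fin.sum_univ_two, Fin.sum_univ_two]
      show ps T1 * (X * d⁄dX ℚ G1 + (F1 * C (1 : ℚ) + G1 * C (0 : ℚ))) = ps Q1 * GG + ps 0 * G1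
      rw [h0, map_zero, map_one, ← h2]
      ring
  · intro i j
    fin_cases i <;> fin_cases j
    · exact hF
    · exact hG
    · exact hF1
    · exact hG1
  · intro i j
    fin_cases i <;> fin_cases j
    · exact hG1
    · exact SDc_neg hG
    · exact SDc_neg hF1
    · exact hF

end Pool.Agent.Y120.J
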